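import Pool.Agent.H770.GS.TC

/-! Project TC (helper770), task TC6 (helper628): the inequality in the cut region. -/

set_option autoImplicit false

open MeasureTheory Set intervalIntegral Filter Topology

namespace Pool.Agent.H628.TCcutneg

open Pool.Agent.Helper82.GC Pool.Agent.H770.GS

/-- minus the second derivative of `W` -/
noncomputable def om (y : ℝ) : ℝ := (1 - y ^ 2) * W y

theorem om_cont : Continuous om := by
  unfold om
  have := W_cont
  fun_prop

theorem W_deriv (y : ℝ) : HasDerivAt W (-y * W y) y := by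
  unfold W
  have h : HasDerivAt (fun x : ℝ => -x ^ 2 / 2) (-y) y := by
    refine ((hasDerivAt_pow 2 y).fun_neg.div_const 2).congr_deriv ?_
    norm_num
    ring
  refine h.exp.congr_deriv ?_
  ring

/-- the primitive -/
noncomputable def Th (w y : ℝ) : ℝ := (w * y + 1 + y ^ 2) * W y

theorem Th_deriv (w y : ℝ) : HasDerivAt (Th w) (om y * (y + w)) y := by
  unfold Th
  have h1 : HasDerivAt (fun y : ℝ => w * y + 1 + y ^ 2) (w + 2 * y) y := by
    refine ((((hasDerivAt_id y).const_mul w).add_const 1).add (hasDerivAt_pow 2 y)).congr_deriv ?_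
    norm_num
  refine (h1.mul (W_deriv y)).congr_deriv ?_
  unfold om
  ring

theorem yW_deriv (y : ℝ) : HasDerivAt (fun y => y * W y) (om y) y := by
  refine ((hasDerivAt_id y).mul (W_deriv y)).congr_deriv ?_
  unfold om
  simp only [id]
  ring

theorem g_anti : AntitoneOn (fun s : ℝ => (1 - s) * Real.exp (-s / 2)) (Icc 0 3) := by
  have hd : ∀ s, HasDerivAt (fun s : ℝ => (1 - s) * Real.exp (-s / 2))
      (-(3 - s) / 2 * Real.exp (-s / 2)) s := by
    intro s
    have h1 : HasDerivAt (fun s : ℝ => 1 - s) (-1) s := by simpa using (hasDerivAt_id s).const_sub 1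
    have h2 : HasDerivAt (fun s : ℝ => Real.exp (-s / 2)) (Real.exp (-s / 2) * (-1 / 2)) s :=
      ((hasDerivAt_id s).fun_neg.div_const 2).exp
    refine (h1.mul h2).congr_deriv ?_
    ring
  refine antitoneOn_of_deriv_nonpos (convex_Icc _ _) ?_ ?_ ?_
  · exact fun x _ => (hd x).continuousAt.continuousWithinAt
  · exact fun x _ => (hd x).differentiableAt.differentiableWithinAt
  · intro x hx
    rw [interior_Icc] at hx
    rw [(hd x).deriv]
    have := Real.exp_pos (-x / 2)
    have h3 : 0 ≤ 3 - x := by linarith [hx.2]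
    have h4 := mul_nonneg h3 this.le
    nlinarith

theorem om_le {x y : ℝ} (h : x ^ 2 ≤ y ^ 2) (hy : y ^ 2 ≤ 3) : om y ≤ om x := by
  have h1 := g_anti (show x ^ 2 ∈ Icc (0 : ℝ) 3 from ⟨sq_nonneg _, h.trans hy⟩)
    (show y ^ 2 ∈ Icc (0 : ℝ) 3 from ⟨sq_nonneg _, hy⟩) h
  exact h1

theorem W32 : 0.32 ≤ W (3 / 2) := by
  have h1 : Real.exp (9 / 8) ≤ 3.125 := by
    rw [← pow_le_pow_iff_left₀ (Real.exp_pos _).le (by norm_num) (show (8 : ℕ) ≠ 0 by norm_num)]
    rw [← Real.exp_nat_mul]
    have e : ((8 : ℕ) : ℝ) * (9 / 8) = ((9 : ℕ) : ℝ) * 1 := by norm_num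
    rw [e, Real.exp_nat_mul]
    calc Real.exp 1 ^ 9 ≤ 2.7182818286 ^ 9 :=
          pow_le_pow_left₀ (Real.exp_pos _).le Real.exp_one_lt_d9.le 9
      _ ≤ 3.125 ^ 8 := by norm_num
  unfold W
  have e : -(3 / 2 : ℝ) ^ 2 / 2 = -(9 / 8) := by norm_num
  rw [e, Real.exp_neg]
  have h2 : (3.125 : ℝ)⁻¹ ≤ (Real.exp (9 / 8))⁻¹ := inv_anti₀ (Real.exp_pos _) h1
  refine le_trans ?_ h2
  norm_num

theorem eh : Real.exp (-(1 / 2)) ≤ 0.6066 := by
  have h1 : 1.6486 ≤ Real.exp (1 / 2) := by
    rw [← pow_le_pow_iff_left₀ (by norm_num) (Real.exp_pos _).le (show (2 : ℕ) ≠ 0 by norm_num)]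
    rw [← Real.exp_nat_mul]
    have e : ((2 : ℕ) : ℝ) * (1 / 2) = 1 := by norm_num
    rw [e]
    refine le_trans ?_ Real.exp_one_gt_d9.le
    norm_num
  rw [Real.exp_neg]
  have h2 : (Real.exp (1 / 2))⁻¹ ≤ (1.6486 : ℝ)⁻¹ := inv_anti₀ (by norm_num) h1
  refine h2.trans ?_
  norm_num

theorem W1 : W 1 ≤ 0.6066 := by
  unfold W
  have e : -(1 : ℝ) ^ 2 / 2 = -(1 / 2) := by norm_num
  rw [e]
  exact eh

theorem W_le_one (y : ℝ) : W y ≤ 1 := by
  unfold W
  rw [Real.exp_le_one_iff]
  nlinarith [sq_nonneg y]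

theorem Th_ge {w y₀ Y : ℝ} (hw : 0 ≤ w) (h1 : -1 ≤ y₀) (h2 : 0 ≤ y₀ + w)
    (h3 : Th w y₀ ≤ (3 * w / 2 + 13 / 4) * W (3 / 2)) (hY : y₀ ≤ Y) (hY2 : Y ≤ 3 / 2) :
    Th w y₀ ≤ Th w Y := by
  rcases le_total Y 1 with h | h
  · have hm : MonotoneOn (Th w) (Icc y₀ 1) := by
      refine monotoneOn_of_deriv_nonneg (convex_Icc _ _) ?_ ?_ ?_
      · exact fun x _ => (Th_deriv w x).continuousAt.continuousWithinAt
      · exact fun x _ => (Th_deriv w x).differentiableAt.differentiableWithinAt
      · intro x hx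
        rw [interior_Icc] at hx
        rw [(Th_deriv w x).deriv]
        unfold om
        have h4 := W_pos x
        have h5 : 0 ≤ 1 - x ^ 2 := by nlinarith [hx.1, hx.2]
        have h6 : 0 ≤ x + w := by linarith [hx.1]
        positivity
    exact hm ⟨le_rfl, hY.trans h⟩ ⟨hY, h⟩ hY
  · have hm : AntitoneOn (Th w) (Icc 1 (3 / 2)) := by
      refine antitoneOn_of_deriv_nonpos (convex_Icc _ _) ?_ ?_ ?_
      · exact fun x _ => (Th_deriv w x).continuousAt.continuousWithinAt
      · exact fun x _ => (Th_deriv w x).differentiableAt.differentiableWithinAt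
      · intro x hx
        rw [interior_Icc] at hx
        rw [(Th_deriv w x).deriv]
        unfold om
        have h4 := W_pos x
        have h5 : 0 ≤ x ^ 2 - 1 := by nlinarith [hx.1, hx.2]
        have h6 : 0 ≤ x + w := by linarith [hx.1]
        have h7 : 0 ≤ (x ^ 2 - 1) * W x * (x + w) := by positivity
        nlinarith
    have h8 := hm ⟨h, hY2⟩ ⟨by norm_num, le_rfl⟩ hY2
    refine h3.trans (le_trans (le_of_eq ?_) h8)
    unfold Th
    ring

theorem nL_hd (r c a : ℝ) : HasDerivAt (fun a => nL r (c * a)) (c * nLd r (c * a)) a := by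
  have h0 : HasDerivAt (fun a : ℝ => c * a) (c * 1) a := (hasDerivAt_id a).const_mul c
  refine ((nL_deriv r (c * a)).comp a h0).congr_deriv ?_
  unfold nLd
  ring

theorem abel {r c w a₀ A : ℝ} (hc : 0 < c) (ha₀ : 0 < a₀) (hA : a₀ ≤ A) (hcA : c * A ≤ 2 * r)
    (hTh : ∀ a ∈ Icc a₀ A, Th w (a₀ - w) ≤ Th w (a - w)) :
    0 ≤ ∫ a in a₀..A, om (a - w) * nL r (c * a) := by
  set G : ℝ → ℝ := fun a => Th w (a - w) - Th w (a₀ - w) with hGd
  have hG : ∀ a, HasDerivAt G (om (a - w) * a) a := by
    intro a
    have h1 := (Th_deriv w (a - w)).comp a ((hasDerivAt_id a).sub_const w)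
    refine (h1.sub_const _).congr_deriv ?_
    ring
  have hF : ∀ a, 0 < a → HasDerivAt (fun a => nL r (c * a) * G a / a)
      (((c * nLd r (c * a) * G a + nL r (c * a) * (om (a - w) * a)) * a - nL r (c * a) * G a * 1) / a ^ 2) a :=
    fun a ha => ((nL_hd r c a).mul (hG a)).div (hasDerivAt_id a) ha.ne'
  have key := sub_le_integral_of_hasDeriv_right_of_le hA (g := fun a => nL r (c * a) * G a / a)
    (g' := fun a => ((c * nLd r (c * a) * G a + nL r (c * a) * (om (a - w) * a)) * a -
      nL r (c * a) * G a * 1) / a ^ 2) (φ := fun a => om (a - w) * nL r (c * a))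
    (fun x hx => (hF x (ha₀.trans_le hx.1)).continuousAt.continuousWithinAt)
    (fun x hx => (hF x (ha₀.trans hx.1)).hasDerivWithinAt)
    (by
      have h1 : Continuous fun a => om (a - w) * nL r (c * a) := by
        have h2 := om_cont
        have h3 := nL_cont r
        fun_prop
      exact h1.continuousOn.integrableOn_Icc)
    (fun x hx => by
      have hx0 : 0 < x := ha₀.trans hx.1
      have hz : 0 < c * x := mul_pos hc hx0
      have hz2 : c * x < 2 * r := lt_of_lt_of_le (mul_lt_mul_of_pos_left hx.2 hc) hcA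
      have h1 := nL_anti hz hz2
      have h2 : c * x * nLd r (c * x) ≤ nL r (c * x) := h1
      have h3 : 0 ≤ G x := sub_nonneg.2 (hTh x ⟨hx.1.le, hx.2.le⟩)
      rw [div_le_iff₀ (by positivity)]
      have h4 := mul_nonneg h3 (sub_nonneg.2 h2)
      nlinarith)
  have e1 : nL r (c * a₀) * G a₀ / a₀ = 0 := by
    simp only [hGd, sub_self, mul_zero, zero_div]
  have hApos : 0 < A := ha₀.trans_le hA
  have e2 : 0 ≤ nL r (c * A) * G A / A := by
    have h1 : 0 ≤ nL r (c * A) := nL_nonneg (by positivity) hcA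
    have h3 : 0 ≤ G A := sub_nonneg.2 (hTh A ⟨hA, le_rfl⟩)
    positivity
  rw [e1] at key
  linarith

theorem I2_ge {q : ℝ} (hq : 1 ≤ q) : 4 / 3 ≤ I2 q := by
  have h1 : (∫ p in (-1 : ℝ)..1, (1 - p ^ 2)) = 4 / 3 := by
    rw [intervalIntegral.integral_sub (by simp) (by simp), integral_pow]
    norm_num
  rw [← h1]
  unfold I2
  have h2 : (∫ p in (-1 : ℝ)..1, (1 - p ^ 2)) ≤ ∫ p in (-1 : ℝ)..1, Real.exp (-p ^ 2) := by
    apply intervalIntegral.integral_mono_on (by norm_num)
    · exact (by fun_prop : Continuous fun p : ℝ => 1 - p ^ 2).intervalIntegrable _ _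
    · exact (by fun_prop : Continuous fun p : ℝ => Real.exp (-p ^ 2)).intervalIntegrable _ _
    · intro p _
      have := Real.add_one_le_exp (-p ^ 2)
      linarith
  refine h2.trans ?_
  apply intervalIntegral.integral_mono_interval (by linarith) (by norm_num) hq
  · exact Eventually.of_forall fun p => (Real.exp_pos _).le
  · exact (by fun_prop : Continuous fun p : ℝ => Real.exp (-p ^ 2)).intervalIntegrable _ _

theorem I2_le_pi {q : ℝ} (hq : 0 ≤ q) : I2 q ≤ Real.sqrt Real.pi := by
  unfold I2
  have h1 : (∫ p : ℝ, Real.exp (-p ^ 2)) = Real.sqrt Real.pi := by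
    have := integral_gaussian 1
    simpa using this
  rw [← h1, intervalIntegral.integral_of_le (by linarith)]
  apply setIntegral_le_integral
  · have := integrable_exp_neg_mul_sq (show (0 : ℝ) < 1 by norm_num)
    simpa using this
  · exact Eventually.of_forall fun p => (Real.exp_pos _).le

theorem E_eq (r z : ℝ) : Real.exp (-z ^ 2 / 4) * Real.exp (-(r - z / 2) ^ 2) =
    Real.exp (-(r ^ 2 / 2 + (r - z) ^ 2 / 2)) := by
  rw [← Real.exp_add]
  congr 1
  ring

theorem nL_le {r z : ℝ} (hr : 1 ≤ r) (hr2 : r ≤ 3 / 2) (hz : 0 ≤ z) (hz2 : z ^ 2 ≤ 1 / 2) :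
    nL r z ≤ 1.24 := by
  have hz3 : z ≤ 0.7072 := by nlinarith
  unfold nL fL
  rw [E_eq]
  have h1 : Real.exp (-(r ^ 2 / 2 + (r - z) ^ 2 / 2)) ≤ 0.6066 := by
    refine le_trans (Real.exp_le_exp.2 ?_) eh
    nlinarith [sq_nonneg (r - z)]
  have h2 : I2 (r - z / 2) ≤ Real.sqrt Real.pi := I2_le_pi (by linarith)
  have h3 : Real.sqrt Real.pi ≤ 1.775 := by
    rw [Real.sqrt_le_left (by norm_num)]
    have := Real.pi_lt_d2
    norm_num at this ⊢
    linarith
  have h4 : Real.exp (-z ^ 2 / 4) ≤ 1 := by
    rw [Real.exp_le_one_iff]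
    nlinarith [sq_nonneg z]
  have h5 : 0 ≤ I2 (r - z / 2) := by
    unfold I2
    exact intervalIntegral.integral_nonneg (by linarith) fun p _ => (Real.exp_pos _).le
  have h6 : Real.exp (-z ^ 2 / 4) * I2 (r - z / 2) ≤ 1.775 := by
    calc Real.exp (-z ^ 2 / 4) * I2 (r - z / 2) ≤ 1 * I2 (r - z / 2) := by gcongr
      _ ≤ 1.775 := by linarith
  have h7 : z / 2 * (Real.exp (-z ^ 2 / 4) * I2 (r - z / 2)) ≤ 0.3536 * 1.775 := by
    have h8 : 0 ≤ Real.exp (-z ^ 2 / 4) * I2 (r - z / 2) := mul_nonneg (Real.exp_pos _).le h5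
    have h9 : z / 2 ≤ 0.3536 := by linarith
    gcongr
  linarith

theorem last_eq (r c x : ℝ) : r * nL r x + c * nLd r x = fL r x * (r * x / 2 + c * (2 - x ^ 2) / 4) +
    (Real.exp (-x ^ 2 / 4) * Real.exp (-(r - x / 2) ^ 2)) * (r + c * (r - 3 * x / 2)) := by
  unfold nLd nL
  ring

theorem le_of_sq_le_sq' {a b : ℝ} (h : a ^ 2 ≤ b ^ 2) (hb : 0 ≤ b) : a ≤ b := by
  exact le_of_abs_le ((sq_le_sq.1 h).trans (le_of_eq (abs_of_nonneg hb)))

set_option maxHeartbeats 2000000 in
theorem cutneg : S_cutneg := by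
  intro r c w hr hr2 hc hc2 hw hwr hcut
  have hc0 : 0 < c := by linarith
  have hr3 : r ≤ 3 / 2 := le_of_sq_le_sq' (by norm_num; linarith) (by norm_num)
  have hc3 : c ≤ 1.4143 := le_of_sq_le_sq' (by norm_num; linarith) (by norm_num)
  set A := 2 * r / c with hA
  have hcA : c * A = 2 * r := by
    rw [hA]
    field_simp
  have hAw : A ≤ r + w := by
    rw [hA, div_le_iff₀ hc0]
    linarith
  have hrA : r ≤ A := by
    rw [hA, le_div_iff₀ hc0]
    nlinarith
  have hA0 : 0 < A := hr.trans_le hrA
  have hn0 : ∀ a, 0 ≤ a → a ≤ A → 0 ≤ nL r (c * a) := by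
    intro a h1 h2
    refine nL_nonneg (by positivity) ?_
    rw [← hcA]
    gcongr
  have hcont1 : Continuous fun a => om (a - w) * nL r (c * a) := by
    have h2 := om_cont
    have h3 := nL_cont r
    fun_prop
  have hcont2 : Continuous fun a => om (a + w) * nL r (c * a) := by
    have h2 := om_cont
    have h3 := nL_cont r
    fun_prop
  -- the last term
  set x := c * (r - w) with hx
  have hx0 : 0 ≤ x := mul_nonneg hc0.le (by linarith)
  have hcw : 2 * r - c * r ≤ c * w := by linarith
  have hx1 : x ≤ 2 * r * (c - 1) := by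
    rw [hx]
    nlinarith
  have hx2 : x ≤ 1.243 := by
    have : 2 * r * (c - 1) ≤ 3 * 0.4143 := by nlinarith
    linarith
  have hb1 : 0 ≤ r * x / 2 + c * (2 - x ^ 2) / 4 := by
    have h1 : 0 ≤ 2 - x ^ 2 := by nlinarith
    positivity
  have hb2 : 0 ≤ r + c * (r - 3 * x / 2) := by
    have h1 : c * x ≤ c * (2 * r * (c - 1)) := mul_le_mul_of_nonneg_left hx1 hc0.le
    have h2 : 0 ≤ r * (1 + 4 * c - 3 * c ^ 2) := by
      apply mul_nonneg hr.le
      nlinarith
    nlinarith
  have hx2r : x ≤ 2 * r := by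
    have : c - 1 ≤ 1 := by linarith
    nlinarith
  have hp0 : 0 ≤ fL r x := fL_nonneg hx2r
  have hE0 : 0 ≤ Real.exp (-x ^ 2 / 4) * Real.exp (-(r - x / 2) ^ 2) := by positivity
  have hWr := W_pos r
  have hL : 0 ≤ W r * (r * nL r x + c * nLd r x) := by
    rw [last_eq]
    positivity
  have eQ : Qcdd r c w = -(∫ a in (0:ℝ)..A, om (a - w) * nL r (c * a)) +
      (∫ a in (0:ℝ)..(r - w), om (a + w) * nL r (c * a)) - W r * (r * nL r x + c * nLd r x) := rfl
  rw [eQ]
  by_cases hcase : r ≤ 1 ∨ -1 ≤ r - 2 * w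
  · have hsplit : (∫ a in (0:ℝ)..A, om (a - w) * nL r (c * a)) =
        (∫ a in (0:ℝ)..(r - w), om (a - w) * nL r (c * a)) +
          ∫ a in (r - w)..A, om (a - w) * nL r (c * a) :=
      (integral_add_adjacent_intervals (hcont1.intervalIntegrable _ _) (hcont1.intervalIntegrable _ _)).symm
    have h1 : (∫ a in (0:ℝ)..(r - w), om (a + w) * nL r (c * a)) ≤
        ∫ a in (0:ℝ)..(r - w), om (a - w) * nL r (c * a) := by
      apply intervalIntegral.integral_mono_on (by linarith) (hcont2.intervalIntegrable _ _)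
        (hcont1.intervalIntegrable _ _)
      intro a ha
      apply mul_le_mul_of_nonneg_right _ (hn0 a ha.1 (by linarith [ha.2]))
      apply om_le
      · have h3 := mul_nonneg ha.1 hw
        linarith [show (a + w) ^ 2 - (a - w) ^ 2 = 4 * (a * w) by ring]
      · have h3 : a + w ≤ 3 / 2 := by linarith [ha.2]
        have h4 : 0 ≤ a + w := by linarith [ha.1]
        calc (a + w) ^ 2 ≤ (3 / 2) ^ 2 := by gcongr
          _ ≤ 3 := by norm_num
    have h2 : 0 ≤ ∫ a in (r - w)..A, om (a - w) * nL r (c * a) := by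
      by_cases hr1 : r ≤ 1
      · apply intervalIntegral.integral_nonneg (by linarith)
        intro a ha
        apply mul_nonneg _ (hn0 a (by linarith [ha.1]) ha.2)
        unfold om
        apply mul_nonneg _ (W_pos _).le
        nlinarith [ha.1, ha.2]
      · push Not at hr1
        have hy0 : -1 ≤ r - 2 * w := hcase.resolve_left (not_le.2 hr1)
        refine abel hc0 (by linarith) (by linarith) hcA.le ?_
        intro a ha
        have e0 : r - w - w = r - 2 * w := by ring
        rw [e0]
        refine Th_ge hw hy0 (by linarith) ?_ (by linarith [ha.1]) (by linarith [ha.2])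
        have h3 := W32
        have h4 : (3 * w / 2 + 13 / 4) * 0.32 ≤ (3 * w / 2 + 13 / 4) * W (3 / 2) := by gcongr
        refine le_trans ?_ h4
        set y := r - 2 * w with hy
        have hy1 : y ≤ 0.26 := by
          have h5 : c * y ≤ (3 * c - 4) * r := by
            rw [hy]
            nlinarith
          have h6 : (3 * c - 4) * r ≤ 0.26 * c := by
            rcases le_total (3 * c - 4) 0 with h7 | h7
            · have := mul_nonpos_of_nonpos_of_nonneg h7 hr.le
              linarith
            · have := mul_le_mul_of_nonneg_left hr3 h7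
              nlinarith
          have h7 : c * y ≤ c * 0.26 := by linarith
          exact le_of_mul_le_mul_left h7 hc0
        unfold Th
        have hW0 := W_pos y
        have hW1 := W_le_one y
        rcases le_total 0 y with h5 | h5
        · have h6 : (1 + y ^ 2) * W y ≤ 1 + y ^ 2 / 2 := by
            unfold W
            have e1 : -y ^ 2 / 2 = -(y ^ 2 / 2) := by ring
            rw [e1, Real.exp_neg, ← div_eq_mul_inv, div_le_iff₀ (Real.exp_pos _)]
            have h7 := Real.add_one_le_exp (y ^ 2 / 2)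
            nlinarith [sq_nonneg y, sq_nonneg (y ^ 2)]
          have h8 : w * y * W y ≤ w * y := by
            have : 0 ≤ w * y := mul_nonneg hw h5
            nlinarith
          have h9 : w * y ≤ w * 0.26 := by gcongr
          have h10 : y ^ 2 ≤ 0.26 ^ 2 := by gcongr
          nlinarith
        · have h6 : w * y + 1 + y ^ 2 ≤ 1 := by
            have h7 : w = (r - y) / 2 := by rw [hy]; ring
            rw [h7]
            nlinarith
          have h8 : (w * y + 1 + y ^ 2) * W y ≤ 1 := by
            calc (w * y + 1 + y ^ 2) * W y ≤ 1 * W y := by gcongr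
              _ ≤ 1 := by linarith
          linarith
    linarith
  · push Not at hcase
    obtain ⟨hr1, hy0⟩ := hcase
    have hw1 : 1 < w := by linarith
    have hI2 : (∫ a in (0:ℝ)..(r - w), om (a + w) * nL r (c * a)) ≤ 0 := by
      have h1 : 0 ≤ ∫ a in (0:ℝ)..(r - w), -(om (a + w) * nL r (c * a)) := by
        apply intervalIntegral.integral_nonneg (by linarith)
        intro a ha
        have h2 := hn0 a ha.1 (by linarith [ha.2])
        have h3 : om (a + w) ≤ 0 := by
          unfold om
          have h4 := W_pos (a + w)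
          have h5 : 0 ≤ (a + w) ^ 2 - 1 := by
            have h7 : 1 ≤ a + w := by linarith [ha.1]
            have h8 : (1 : ℝ) ^ 2 ≤ (a + w) ^ 2 := by gcongr
            linarith
          have h6 := mul_nonneg h5 h4.le
          linarith
        have := mul_nonneg (neg_nonneg.2 h3) h2
        linarith
      rw [intervalIntegral.integral_neg] at h1
      linarith
    have hsplit : (∫ a in (0:ℝ)..A, om (a - w) * nL r (c * a)) =
        (∫ a in (0:ℝ)..(w - 1), om (a - w) * nL r (c * a)) +
          ∫ a in (w - 1)..A, om (a - w) * nL r (c * a) :=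
      (integral_add_adjacent_intervals (hcont1.intervalIntegrable _ _) (hcont1.intervalIntegrable _ _)).symm
    have hI1 : 0 ≤ ∫ a in (w - 1)..A, om (a - w) * nL r (c * a) := by
      refine abel hc0 (by linarith) (by linarith) hcA.le ?_
      intro a ha
      have e0 : w - 1 - w = -1 := by ring
      rw [e0]
      refine Th_ge hw le_rfl (by linarith) ?_ (by linarith [ha.1]) (by linarith [ha.2])
      have h3 := W32
      have h4 : (3 * w / 2 + 13 / 4) * 0.32 ≤ (3 * w / 2 + 13 / 4) * W (3 / 2) := by gcongr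
      refine le_trans ?_ h4
      unfold Th
      have hW0 := W_pos (-1)
      have hW1 := W_le_one (-1)
      have h5 : (w * (-1) + 1 + (-1) ^ 2) * W (-1) ≤ 1 := by
        calc (w * (-1) + 1 + (-1) ^ 2) * W (-1) ≤ 1 * W (-1) := by
              apply mul_le_mul_of_nonneg_right _ hW0.le
              linarith
          _ ≤ 1 := by linarith
      linarith
    have hI0 : -(0.158 : ℝ) ≤ ∫ a in (0:ℝ)..(w - 1), om (a - w) * nL r (c * a) := by
      have h1 : (∫ a in (0:ℝ)..(w - 1), om (a - w) * 1.24) ≤
          ∫ a in (0:ℝ)..(w - 1), om (a - w) * nL r (c * a) := by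
        apply intervalIntegral.integral_mono_on (by linarith)
        · have h2 := om_cont
          exact (by fun_prop : Continuous fun a => om (a - w) * 1.24).intervalIntegrable _ _
        · exact hcont1.intervalIntegrable _ _
        · intro a ha
          have h3 : om (a - w) ≤ 0 := by
            unfold om
            have h4 := W_pos (a - w)
            have h5 : 0 ≤ (a - w) ^ 2 - 1 := by
              have h7 : 1 ≤ w - a := by linarith [ha.2]
              have h8 : (1 : ℝ) ^ 2 ≤ (w - a) ^ 2 := by gcongr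
              have e9 : (w - a) ^ 2 = (a - w) ^ 2 := by ring
              rw [e9] at h8
              linarith
            have h6 := mul_nonneg h5 h4.le
            linarith
          have h7 : nL r (c * a) ≤ 1.24 := by
            have h8 : a ≤ 1 / 2 := by linarith [ha.2]
            refine nL_le hr1.le hr3 (mul_nonneg hc0.le ha.1) ?_
            have h9 : (c * a) ^ 2 = c ^ 2 * a ^ 2 := by ring
            rw [h9]
            have ha1 := ha.1
            have h10 : a ^ 2 ≤ (1 / 2) ^ 2 := by gcongr
            calc c ^ 2 * a ^ 2 ≤ 2 * (1 / 2) ^ 2 := by gcongr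
              _ = 1 / 2 := by norm_num
          have h8 := mul_nonneg (neg_nonneg.2 h3) (sub_nonneg.2 h7)
          have e9 : -om (a - w) * (1.24 - nL r (c * a)) = om (a - w) * nL r (c * a) - om (a - w) * 1.24 := by
            ring
          rw [e9] at h8
          linarith
      refine le_trans ?_ h1
      rw [intervalIntegral.integral_mul_const]
      have h2 : (∫ a in (0:ℝ)..(w - 1), om (a - w)) = -1 * W (-1) - (-w) * W (-w) := by
        rw [intervalIntegral.integral_comp_sub_right (fun y => om y) w]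
        have e1 : (0 : ℝ) - w = -w := by ring
        have e2 : w - 1 - w = -1 := by ring
        rw [e1, e2]
        exact intervalIntegral.integral_eq_sub_of_hasDerivAt (fun y _ => yW_deriv y)
          (om_cont.intervalIntegrable _ _)
      have h3 : W (-1) = W 1 := by unfold W; norm_num
      have h4 : W (-w) = W w := by unfold W; congr 1; ring
      have h5 : 0.48 ≤ w * W w := by
        have hm : AntitoneOn (fun y => y * W y) (Icc 1 (3 / 2)) := by
          refine antitoneOn_of_deriv_nonpos (convex_Icc _ _) ?_ ?_ ?_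
          · exact fun x _ => (yW_deriv x).continuousAt.continuousWithinAt
          · exact fun x _ => (yW_deriv x).differentiableAt.differentiableWithinAt
          · intro x hx
            rw [interior_Icc] at hx
            rw [(yW_deriv x).deriv]
            unfold om
            have h6 := W_pos x
            have h7 : 0 ≤ x ^ 2 - 1 := by nlinarith [hx.1, hx.2]
            have h8 := mul_nonneg h7 h6.le
            linarith
        have h6 := hm ⟨hw1.le, by linarith⟩ ⟨by norm_num, le_rfl⟩ (show w ≤ 3 / 2 by linarith)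
        simp only at h6
        have h7 := W32
        linarith
      have h6 := W1
      rw [h2, h3, h4]
      have e9 : (-1 * W 1 - -w * W w) * 1.24 = (w * W w - W 1) * 1.24 := by ring
      rw [e9]
      have h7 : -0.1266 ≤ w * W w - W 1 := by linarith
      have h8 := mul_le_mul_of_nonneg_right h7 (show (0 : ℝ) ≤ 1.24 by norm_num)
      linarith
    have hLL : 0.19 ≤ W r * (r * nL r x + c * nLd r x) := by
      have hxs : x ≤ c * ((r - 1) / 2) := by
        rw [hx]
        have : r - w ≤ (r - 1) / 2 := by linarith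
        gcongr
      have hx4 : x ≤ 0.72 * (r - 1) := by
        have h1 : c * ((r - 1) / 2) ≤ 1.4143 * ((r - 1) / 2) := by
          apply mul_le_mul_of_nonneg_right hc3
          linarith
        linarith
      have hx5 : x ^ 2 ≤ 1 / 8 := by
        have h1 : x ≤ c * (1 / 4) := hxs.trans (by
          have : (r - 1) / 2 ≤ 1 / 4 := by linarith
          gcongr)
        have h2 : x ^ 2 ≤ (c * (1 / 4)) ^ 2 := by gcongr
        have e9 : (c * (1 / 4)) ^ 2 = c ^ 2 / 16 := by ring
        rw [e9] at h2
        linarith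
      have hq : 1 ≤ r - x / 2 := by linarith
      have h1 := I2_ge hq
      have h2 : 31 / 32 ≤ Real.exp (-x ^ 2 / 4) := by
        have := Real.add_one_le_exp (-x ^ 2 / 4)
        linarith
      have h3 : 31 / 32 * (4 / 3) ≤ fL r x := by
        unfold fL
        gcongr
      have h4 : 15 / 32 ≤ r * x / 2 + c * (2 - x ^ 2) / 4 := by
        have h5 : 0 ≤ r * x / 2 := by positivity
        have h6 : 1 * (2 - x ^ 2) ≤ c * (2 - x ^ 2) := by
          apply mul_le_mul_of_nonneg_right hc
          linarith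
        linarith
      have h5 : 31 / 32 * (4 / 3) * (15 / 32) ≤ r * nL r x + c * nLd r x := by
        rw [last_eq]
        have h6 : 31 / 32 * (4 / 3) * (15 / 32) ≤ fL r x * (r * x / 2 + c * (2 - x ^ 2) / 4) := by
          gcongr
        have h7 := mul_nonneg hE0 hb2
        linarith
      have h6 : 0.32 ≤ W r := by
        refine W32.trans ?_
        unfold W
        apply Real.exp_le_exp.2
        linarith
      calc (0.19 : ℝ) ≤ 0.32 * (31 / 32 * (4 / 3) * (15 / 32)) := by norm_num
        _ ≤ W r * (r * nL r x + c * nLd r x) := by gcongr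
    linarith

end Pool.Agent.H628.TCcutneg
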