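import Mathlib
import Pool.Agent.H402.FF.Stm

/-!
# FF: `S_ct`
-/

set_option autoImplicit false

open Finset

namespace Pool.Agent.H628.FF_CT

open Pool.Agent.H402.FF

universe u

/-- at least `finrank U` leading positions -/
theorem finrank_le {F : Type*} [Field F] {n : ℕ} (ρ : Fin (n + 1) → ℕ)
    (U : Submodule F (Fin (n + 1) → F)) [DecidablePred (Ld ρ U)] :
    Module.finrank F U ≤ ∑ a, if Ld ρ U a then 1 else 0 := by
  classical
  rw [← Finset.card_filter]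
  let S := {a // Ld ρ U a}
  let φ : U →ₗ[F] (S → F) :=
    { toFun := fun u a => (u : Fin (n + 1) → F) a.1
      map_add' := fun u v => by ext a; simp
      map_smul' := fun c u => by ext a; simp }
  have hφ : Function.Injective φ := by
    rw [← LinearMap.ker_eq_bot, LinearMap.ker_eq_bot']
    intro u hu
    by_contra hne
    have hne' : (u : Fin (n + 1) → F) ≠ 0 := fun h => hne (Subtype.ext h)
    obtain ⟨a₀, ha₀⟩ := Function.ne_iff.1 hne'
    obtain ⟨a, ha, hmin⟩ := Finset.exists_min_image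
      (Finset.univ.filter fun a => (u : Fin (n + 1) → F) a ≠ 0) ρ
      ⟨a₀, by simpa using ha₀⟩
    rw [Finset.mem_filter] at ha
    have hLd : Ld ρ U a := by
      refine ⟨u, u.2, ha.2, fun b hb => ?_⟩
      by_contra hb0
      have := hmin b (by simpa using hb0)
      omega
    exact ha.2 (congrFun hu ⟨a, hLd⟩)
  have h1 := LinearMap.finrank_le_finrank_of_injective hφ
  rw [Module.finrank_fintype_fun_eq_card, Fintype.card_subtype] at h1
  exact h1

theorem not_all {F : Type*} [Field F] {n : ℕ} {N : Fin (n + 1) → Fin (n + 1) → Fin (n + 1) → F}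
    {U V W : Submodule F (Fin (n + 1) → F)} {ρ₁ ρ₂ ρ₃ : Fin (n + 1) → ℕ}
    (hUVW : ∀ u ∈ U, ∀ v ∈ V, ∀ w ∈ W, ∑ a, ∑ b, ∑ c, u a * v b * w c * N a b c = 0)
    {i : Fin (n + 1)} (h0 : N i i i ≠ 0) (hN : ∀ a b c, ρ₁ i ≤ ρ₁ a → ρ₂ i ≤ ρ₂ b →
      ρ₃ i ≤ ρ₃ c → (a, b, c) ≠ (i, i, i) → N a b c = 0) :
    ¬ (Ld ρ₁ U i ∧ Ld ρ₂ V i ∧ Ld ρ₃ W i) := by
  rintro ⟨⟨u, hu, hu0, hu1⟩, ⟨v, hv, hv0, hv1⟩, ⟨w, hw, hw0, hw1⟩⟩
  have key := hUVW u hu v hv w hw
  have hz : ∀ a b c, (a, b, c) ≠ (i, i, i) → u a * v b * w c * N a b c = 0 := by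
    intro a b c habc
    by_cases ha : ρ₁ a < ρ₁ i
    · rw [hu1 a ha]; ring
    by_cases hb : ρ₂ b < ρ₂ i
    · rw [hv1 b hb]; ring
    by_cases hc : ρ₃ c < ρ₃ i
    · rw [hw1 c hc]; ring
    rw [hN a b c (not_lt.1 ha) (not_lt.1 hb) (not_lt.1 hc) habc, mul_zero]
  rw [Finset.sum_eq_single i, Finset.sum_eq_single i, Finset.sum_eq_single i] at key
  · exact mul_ne_zero (mul_ne_zero (mul_ne_zero hu0 hv0) hw0) h0 key
  · intro c _ hc
    exact hz _ _ _ fun h => hc (by simpa using h)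
  · intro h; exact absurd (Finset.mem_univ _) h
  · intro b _ hb
    exact Finset.sum_eq_zero fun c _ => hz _ _ _ fun h => hb (by
      have := congrArg (fun p => p.2.1) h
      simpa using this)
  · intro h; exact absurd (Finset.mem_univ _) h
  · intro a _ ha
    exact Finset.sum_eq_zero fun b _ => Finset.sum_eq_zero fun c _ => hz _ _ _ fun h => ha (by
      have := congrArg (fun p => p.1) h
      simpa using this)
  · intro h; exact absurd (Finset.mem_univ _) h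

theorem holds : S_ct.{u} := by
  classical
  intro F _ n N U V W ρ₁ ρ₂ ρ₃ _ _ _ hUVW hdim hN
  have h2 : ∀ i : Fin n, ¬ (Ld ρ₁ U i.succ ∧ Ld ρ₂ V i.succ ∧ Ld ρ₃ W i.succ) := fun i =>
    not_all hUVW (hN i).1 (hN i).2
  have hU := finrank_le ρ₁ U
  have hV := finrank_le ρ₂ V
  have hW := finrank_le ρ₃ W
  have hall : 2 * n + 3 ≤ ∑ a, ((if Ld ρ₁ U a then 1 else 0) + (if Ld ρ₂ V a then 1 else 0) +
      (if Ld ρ₃ W a then 1 else 0)) := by
    rw [Finset.sum_add_distrib, Finset.sum_add_distrib]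
    omega
  rw [Fin.sum_univ_succ] at hall
  have hle : ∀ i : Fin n, (if Ld ρ₁ U i.succ then 1 else 0) + (if Ld ρ₂ V i.succ then 1 else 0) +
      (if Ld ρ₃ W i.succ then 1 else 0) ≤ 2 := by
    intro i
    have := h2 i
    by_cases h3 : Ld ρ₁ U i.succ <;> by_cases h4 : Ld ρ₂ V i.succ <;>
      by_cases h5 : Ld ρ₃ W i.succ <;> simp_all
  have hsum : ∑ i : Fin n, ((if Ld ρ₁ U i.succ then 1 else 0) +
      (if Ld ρ₂ V i.succ then 1 else 0) + (if Ld ρ₃ W i.succ then 1 else 0)) ≤ n * 2 := by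
    refine (Finset.sum_le_sum fun i _ => hle i).trans ?_
    simp
  have h0 : Ld ρ₁ U 0 ∧ Ld ρ₂ V 0 ∧ Ld ρ₃ W 0 := by
    by_contra hcon
    have : (if Ld ρ₁ U 0 then 1 else 0) + (if Ld ρ₂ V 0 then 1 else 0) +
        (if Ld ρ₃ W 0 then 1 else 0) ≤ 2 := by
      by_cases h3 : Ld ρ₁ U 0 <;> by_cases h4 : Ld ρ₂ V 0 <;>
        by_cases h5 : Ld ρ₃ W 0 <;> simp_all
    omega
  have h03 : (if Ld ρ₁ U 0 then 1 else 0) + (if Ld ρ₂ V 0 then 1 else 0) +
      (if Ld ρ₃ W 0 then 1 else 0) = 3 := by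
    rw [if_pos h0.1, if_pos h0.2.1, if_pos h0.2.2]
  refine ⟨h0.1, h0.2.1, h0.2.2, fun i => ?_⟩
  have hi : ¬ ((if Ld ρ₁ U i.succ then 1 else 0) + (if Ld ρ₂ V i.succ then 1 else 0) +
      (if Ld ρ₃ W i.succ then 1 else 0) < 2) := by
    intro hlt
    have : ∑ i : Fin n, ((if Ld ρ₁ U i.succ then 1 else 0) +
        (if Ld ρ₂ V i.succ then 1 else 0) + (if Ld ρ₃ W i.succ then 1 else 0)) <
        ∑ _i : Fin n, 2 := Finset.sum_lt_sum (fun i _ => hle i) ⟨i, Finset.mem_univ _, hlt⟩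
    rw [Finset.sum_const, Finset.card_univ, Fintype.card_fin, smul_eq_mul] at this
    omega
  have := h2 i
  by_cases h3 : Ld ρ₁ U i.succ <;> by_cases h4 : Ld ρ₂ V i.succ <;>
    by_cases h5 : Ld ρ₃ W i.succ <;> simp_all

end Pool.Agent.H628.FF_CT
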