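import Mathlib
import Pool.Agent.H402.FF.Stm

/-!
# FF: `S_df`
-/

set_option autoImplicit false

open Finset

namespace Pool.Agent.H628.FF_DF

open Pool.Agent.H402.FF

universe u

theorem sum4 {F : Type*} [Field F] {m s : ℕ} (f : Fin m → Fin m → Fin m → Fin s → F) :
    ∑ x, ∑ y, ∑ z, ∑ t, f x y z t = ∑ t, ∑ x, ∑ y, ∑ z, f x y z t := by
  calc ∑ x, ∑ y, ∑ z, ∑ t, f x y z t = ∑ x, ∑ y, ∑ t, ∑ z, f x y z t :=
        Finset.sum_congr rfl fun x _ => Finset.sum_congr rfl fun y _ => Finset.sum_comm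
    _ = ∑ x, ∑ t, ∑ y, ∑ z, f x y z t := Finset.sum_congr rfl fun x _ => Finset.sum_comm
    _ = _ := Finset.sum_comm

theorem holds : S_df.{u} := by
  intro F _ m T p q r k ⟨p', q', r', hlt, a, g, b, h, c, e, hT⟩
  refine ⟨p', q', r', hlt, fun t i => ∑ x, p i x * a t x,
    fun t j l => ∑ y, ∑ z, q j y * r l z * g t y z, fun t j => ∑ y, q j y * b t y,
    fun t i l => ∑ x, ∑ z, p i x * r l z * h t x z, fun t l => ∑ z, r l z * c t z,
    fun t i j => ∑ x, ∑ y, p i x * q j y * e t x y, fun i j l => ?_⟩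
  have k1 : ∑ x, ∑ y, ∑ z, p i x * q j y * r l z * ∑ t, a t x * g t y z =
      ∑ t, (∑ x, p i x * a t x) * ∑ y, ∑ z, q j y * r l z * g t y z := by
    simp only [Finset.mul_sum]
    rw [sum4]
    refine Finset.sum_congr rfl fun t _ => ?_
    rw [Finset.sum_comm]
    refine Finset.sum_congr rfl fun y _ => ?_
    rw [Finset.sum_comm]
    refine Finset.sum_congr rfl fun z _ => ?_
    rw [Finset.sum_mul]
    refine Finset.sum_congr rfl fun x _ => ?_
    ring
  have k2 : ∑ x, ∑ y, ∑ z, p i x * q j y * r l z * ∑ t, b t y * h t x z =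
      ∑ t, (∑ y, q j y * b t y) * ∑ x, ∑ z, p i x * r l z * h t x z := by
    simp only [Finset.mul_sum]
    rw [sum4]
    refine Finset.sum_congr rfl fun t _ => ?_
    refine Finset.sum_congr rfl fun x _ => ?_
    rw [Finset.sum_comm]
    refine Finset.sum_congr rfl fun z _ => ?_
    rw [Finset.sum_mul]
    refine Finset.sum_congr rfl fun y _ => ?_
    ring
  have k3 : ∑ x, ∑ y, ∑ z, p i x * q j y * r l z * ∑ t, c t z * e t x y =
      ∑ t, (∑ z, r l z * c t z) * ∑ x, ∑ y, p i x * q j y * e t x y := by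
    simp only [Finset.mul_sum]
    rw [sum4]
    refine Finset.sum_congr rfl fun t _ => ?_
    refine Finset.sum_congr rfl fun x _ => ?_
    refine Finset.sum_congr rfl fun y _ => ?_
    rw [Finset.sum_mul]
    refine Finset.sum_congr rfl fun z _ => ?_
    ring
  rw [← k1, ← k2, ← k3, ← Finset.sum_add_distrib, ← Finset.sum_add_distrib]
  refine Finset.sum_congr rfl fun x _ => ?_
  rw [← Finset.sum_add_distrib, ← Finset.sum_add_distrib]
  refine Finset.sum_congr rfl fun y _ => ?_
  rw [← Finset.sum_add_distrib, ← Finset.sum_add_distrib]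
  refine Finset.sum_congr rfl fun z _ => ?_
  rw [hT]
  ring

end Pool.Agent.H628.FF_DF
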