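import Mathlib
import Pool.Agent.H402.FF.Stm

/-!
# FF: `S_part`
-/

set_option autoImplicit false

open Finset

namespace Pool.Agent.H628.FF_PART

open Pool.Agent.H402.FF

universe u

theorem holds : S_part.{u} := by
  classical
  intro F _ X Y Z N f g h T hT
  by_cases hX : Nonempty X
  swap
  · exact ⟨0, 0, 0, by omega, fun _ _ => 0, fun _ _ _ => 0, fun _ _ => 0, fun _ _ _ => 0,
      fun _ _ => 0, fun _ _ _ => 0, fun x => (hX ⟨x⟩).elim⟩
  by_cases hY : Nonempty Y
  swap
  · exact ⟨0, 0, 0, by omega, fun _ _ => 0, fun _ _ _ => 0, fun _ _ => 0, fun _ _ _ => 0,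
      fun _ _ => 0, fun _ _ _ => 0, fun _ y => (hY ⟨y⟩).elim⟩
  by_cases hZ : Nonempty Z
  swap
  · exact ⟨0, 0, 0, by omega, fun _ _ => 0, fun _ _ _ => 0, fun _ _ => 0, fun _ _ _ => 0,
      fun _ _ => 0, fun _ _ _ => 0, fun _ _ z => (hZ ⟨z⟩).elim⟩
  have hf : ∀ x, f (Function.invFun f (f x)) = f x := fun x => Function.invFun_eq ⟨x, rfl⟩
  have hg : ∀ y, g (Function.invFun g (g y)) = g y := fun y => Function.invFun_eq ⟨y, rfl⟩
  have hh : ∀ z, h (Function.invFun h (h z)) = h z := fun z => Function.invFun_eq ⟨z, rfl⟩
  refine ⟨N, N, N, by omega, fun i x => if f x = i then 1 else 0,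
    fun i y z => T (Function.invFun f i) y z - T (Function.invFun f i) (Function.invFun g (g y)) z -
      T (Function.invFun f i) y (Function.invFun h (h z)) +
      T (Function.invFun f i) (Function.invFun g (g y)) (Function.invFun h (h z)),
    fun i y => if g y = i then 1 else 0,
    fun i x z => T x (Function.invFun g i) z - T x (Function.invFun g i) (Function.invFun h (h z)),
    fun i z => if h z = i then 1 else 0,
    fun i x y => T x y (Function.invFun h i), fun x y z => ?_⟩
  simp only [ite_mul, one_mul, zero_mul, Finset.sum_ite_eq, Finset.mem_univ, if_true]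
  have key := hT (fun s => if s then x else Function.invFun f (f x))
    (fun s => if s then y else Function.invFun g (g y))
    (fun s => if s then z else Function.invFun h (h z)) (by simp [hf]) (by simp [hg]) (by simp [hh])
  unfold Dz at key
  simp only [if_true, Bool.false_eq_true, if_false] at key
  linear_combination key

end Pool.Agent.H628.FF_PART
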