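import Mathlib
import Pool.Agent.H402.FF.Stm

/-!
# FF: `S_tr` (from `S_ct`)
-/

set_option autoImplicit false

open Finset

namespace Pool.Agent.H628.FF_TR

open Pool.Agent.H402.FF

universe u

theorem ker_dim {F : Type*} [Field F] {n p : ℕ} (a : Fin p → Fin (n + 1) → F) :
    ∃ U : Submodule F (Fin (n + 1) → F), (∀ u ∈ U, ∀ i, ∑ x, a i x * u x = 0) ∧
      n + 1 ≤ Module.finrank F U + p := by
  let φ : (Fin (n + 1) → F) →ₗ[F] (Fin p → F) := Matrix.mulVecLin (Matrix.of a)
  refine ⟨LinearMap.ker φ, fun u hu i => ?_, ?_⟩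
  · have := congrFun (LinearMap.mem_ker.1 hu) i
    exact this
  · have h1 := LinearMap.finrank_range_add_finrank_ker φ
    have h2 := Submodule.finrank_le (LinearMap.range φ)
    rw [Module.finrank_fin_fun] at h1 h2
    omega

theorem sum4 {F : Type*} [Field F] {m s : ℕ} (f : Fin m → Fin m → Fin m → Fin s → F) :
    ∑ x, ∑ y, ∑ z, ∑ t, f x y z t = ∑ t, ∑ x, ∑ y, ∑ z, f x y z t := by
  calc ∑ x, ∑ y, ∑ z, ∑ t, f x y z t = ∑ x, ∑ y, ∑ t, ∑ z, f x y z t :=
        Finset.sum_congr rfl fun x _ => Finset.sum_congr rfl fun y _ => Finset.sum_comm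
    _ = ∑ x, ∑ t, ∑ y, ∑ z, f x y z t := Finset.sum_congr rfl fun x _ => Finset.sum_comm
    _ = _ := Finset.sum_comm

/-- the three spaces of a slice rank decomposition -/
theorem spaces {F : Type*} [Field F] {n : ℕ} {N : Fin (n + 1) → Fin (n + 1) → Fin (n + 1) → F}
    (hN : SL N (n + 1)) : ∃ U V W : Submodule F (Fin (n + 1) → F),
      (∀ u ∈ U, ∀ v ∈ V, ∀ w ∈ W, ∑ a, ∑ b, ∑ c, u a * v b * w c * N a b c = 0) ∧
      2 * n + 3 ≤ Module.finrank F U + Module.finrank F V + Module.finrank F W := by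
  obtain ⟨p, q, r, hlt, a, g, b, h, c, e, hT⟩ := hN
  obtain ⟨U, hU, hU'⟩ := ker_dim a
  obtain ⟨V, hV, hV'⟩ := ker_dim b
  obtain ⟨W, hW, hW'⟩ := ker_dim c
  refine ⟨U, V, W, fun u hu v hv w hw => ?_, by omega⟩
  have k1 : ∑ x, ∑ y, ∑ z, u x * v y * w z * ∑ t, a t x * g t y z = 0 := by
    simp only [Finset.mul_sum]
    rw [sum4]
    refine Finset.sum_eq_zero fun t _ => ?_
    rw [Finset.sum_comm]
    refine Finset.sum_eq_zero fun y _ => ?_
    rw [Finset.sum_comm]
    refine Finset.sum_eq_zero fun z _ => ?_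
    have : ∀ x, u x * v y * w z * (a t x * g t y z) = (a t x * u x) * (v y * w z * g t y z) :=
      fun x => by ring
    simp only [this]
    rw [← Finset.sum_mul, hU u hu, zero_mul]
  have k2 : ∑ x, ∑ y, ∑ z, u x * v y * w z * ∑ t, b t y * h t x z = 0 := by
    simp only [Finset.mul_sum]
    rw [sum4]
    refine Finset.sum_eq_zero fun t _ => ?_
    refine Finset.sum_eq_zero fun x _ => ?_
    rw [Finset.sum_comm]
    refine Finset.sum_eq_zero fun z _ => ?_
    have : ∀ y, u x * v y * w z * (b t y * h t x z) = (b t y * v y) * (u x * w z * h t x z) :=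
      fun x => by ring
    simp only [this]
    rw [← Finset.sum_mul, hV v hv, zero_mul]
  have k3 : ∑ x, ∑ y, ∑ z, u x * v y * w z * ∑ t, c t z * e t x y = 0 := by
    simp only [Finset.mul_sum]
    rw [sum4]
    refine Finset.sum_eq_zero fun t _ => ?_
    refine Finset.sum_eq_zero fun x _ => ?_
    refine Finset.sum_eq_zero fun y _ => ?_
    have : ∀ z, u x * v y * w z * (c t z * e t x y) = (c t z * w z) * (u x * v y * e t x y) :=
      fun x => by ring
    simp only [this]
    rw [← Finset.sum_mul, hW w hw, zero_mul]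
  simp only [hT, mul_add, Finset.sum_add_distrib]
  rw [k1, k2, k3, add_zero, add_zero]

/-- a leading position for an order in which it is last gives a coordinate vector -/
theorem single_mem {F : Type*} [Field F] {n : ℕ} {U : Submodule F (Fin (n + 1) → F)}
    {ρ : Fin (n + 1) → ℕ} {a : Fin (n + 1)} (h : Ld ρ U a) (hlast : ∀ b, b ≠ a → ρ b < ρ a) :
    Pi.single a (1 : F) ∈ U := by
  obtain ⟨u, hu, hu0, hu1⟩ := h
  have : Pi.single a (1 : F) = (u a)⁻¹ • u := by
    ext b
    by_cases hb : b = a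
    · subst hb
      simp [hu0]
    · rw [Pi.single_eq_of_ne hb, Pi.smul_apply, hu1 b (hlast b hb), smul_zero]
  rw [this]
  exact U.smul_mem _ hu

/-- the order in which `a` is last -/
def lastρ {n : ℕ} (a b : Fin (n + 1)) : ℕ := if b = a then n + 1 else b.val

theorem lastρ_inj {n : ℕ} (a : Fin (n + 1)) : Function.Injective (lastρ a) := by
  intro b c h
  unfold lastρ at h
  split_ifs at h with h1 h2 h2
  · rw [h1, h2]
  · omega
  · omega
  · exact Fin.ext h

theorem lastρ_lt {n : ℕ} (a b : Fin (n + 1)) (h : b ≠ a) : lastρ a b < lastρ a a := by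
  unfold lastρ
  rw [if_neg h, if_pos rfl]
  omega

/-- `0` first, then descending -/
def dscρ {n : ℕ} (c : Fin (n + 1)) : ℕ := if c = 0 then 0 else n + 1 - c.val

theorem dscρ_inj {n : ℕ} : Function.Injective (dscρ (n := n)) := by
  intro b c h
  unfold dscρ at h
  split_ifs at h with h1 h2 h2
  · rw [h1, h2]
  · omega
  · omega
  · exact Fin.ext (by omega)

theorem dscρ_succ {n : ℕ} (k : Fin n) : dscρ k.succ = n - k.val := by
  unfold dscρ
  rw [if_neg (Fin.succ_ne_zero k), Fin.val_succ]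
  omega

theorem dscρ_zero {n : ℕ} : dscρ (0 : Fin (n + 1)) = 0 := by
  unfold dscρ
  rw [if_pos rfl]

theorem single_form {F : Type*} [Field F] {n : ℕ} {N : Fin (n + 1) → Fin (n + 1) → Fin (n + 1) → F}
    (a : Fin (n + 1)) (v w : Fin (n + 1) → F)
    (h : ∑ a', ∑ b, ∑ c, (Pi.single a (1 : F) : Fin (n + 1) → F) a' * v b * w c * N a' b c = 0) :
    ∑ j, ∑ k, v j * w k * N a j k = 0 := by
  rw [Finset.sum_eq_single a] at h
  · simpa using h
  · intro b _ hb
    refine Finset.sum_eq_zero fun _ _ => Finset.sum_eq_zero fun _ _ => ?_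
    rw [Pi.single_eq_of_ne hb]
    ring
  · intro h; exact absurd (Finset.mem_univ _) h

theorem holds (h1 : S_ct.{u}) : S_tr.{u} := by
  classical
  intro F _ n N κ hκ hint h0 hSL
  obtain ⟨U, V, W, hform, hdim⟩ := spaces hSL
  have hcond : ∀ ρ₁ : Fin (n + 1) → ℕ, ∀ i : Fin n, N i.succ i.succ i.succ ≠ 0 ∧
      ∀ a b c, ρ₁ i.succ ≤ ρ₁ a → (fun b : Fin (n + 1) => b.val) i.succ ≤
        (fun b : Fin (n + 1) => b.val) b → dscρ i.succ ≤ dscρ c →
        (a, b, c) ≠ (i.succ, i.succ, i.succ) → N a b c = 0 := by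
    intro ρ₁ i
    constructor
    · rw [hint i i i le_rfl, if_pos ⟨rfl, rfl⟩]
      exact hκ i
    · intro a b c _ hb hc hne
      beta_reduce at hb
      rw [Fin.val_succ] at hb
      rw [dscρ_succ] at hc
      have hi := i.2
      rcases Fin.eq_zero_or_eq_succ b with rfl | ⟨j, rfl⟩
      · simp at hb
      rcases Fin.eq_zero_or_eq_succ c with rfl | ⟨k, rfl⟩
      · rw [dscρ_zero] at hc; omega
      rw [dscρ_succ] at hc
      rw [Fin.val_succ] at hb
      have hkj : k ≤ j := by rw [Fin.le_def]; omega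
      rcases Fin.eq_zero_or_eq_succ a with rfl | ⟨l, rfl⟩
      · exact h0 j k hkj
      · rw [hint l j k hkj, if_neg]
        rintro ⟨rfl, rfl⟩
        have : l = i := Fin.ext (by omega)
        subst this
        exact hne rfl
  have hct := fun (ρ₁ : Fin (n + 1) → ℕ) (hρ : Function.Injective ρ₁) =>
    h1 F n N U V W ρ₁ (fun b => b.val) dscρ hρ Fin.val_injective dscρ_inj hform hdim (hcond ρ₁)
  have hbase := hct (fun b => b.val) Fin.val_injective
  obtain ⟨-, hV0, hW0, -⟩ := hbase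
  -- `e 0 ∈ U`
  have he0 : Pi.single 0 (1 : F) ∈ U :=
    single_mem (hct (lastρ 0) (lastρ_inj 0)).1 (lastρ_lt 0)
  -- interior leading positions of `U`
  have heU : ∀ i : Fin n, Ld (fun b : Fin (n + 1) => b.val) V i.succ ∧ Ld dscρ W i.succ ∨
      Pi.single i.succ (1 : F) ∈ U := by
    intro i
    rcases (hct (lastρ i.succ) (lastρ_inj _)).2.2.2 i with h | h | h
    · exact Or.inl h.2
    · exact Or.inr (single_mem h.1 (lastρ_lt _))
    · exact Or.inr (single_mem h.1 (lastρ_lt _))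
  have hVW : ∀ i : Fin n, Ld (fun b : Fin (n + 1) => b.val) V i.succ ∨ Ld dscρ W i.succ := by
    intro i
    rcases (hct (lastρ i.succ) (lastρ_inj _)).2.2.2 i with h | h | h
    · exact Or.inl h.2.1
    · exact Or.inr h.2.2
    · exact Or.inl h.2.1
  let τ : Fin n → Fin 3 := fun i =>
    if ¬ Ld (fun b : Fin (n + 1) => b.val) V i.succ then 1 else
      if ¬ Ld dscρ W i.succ then 2 else 0
  have hτ0 : ∀ i, τ i ≠ 0 → Pi.single i.succ (1 : F) ∈ U := by
    intro i hi
    rcases heU i with h | h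
    · exfalso
      apply hi
      simp only [τ]
      rw [if_neg (not_not.2 h.1), if_neg (not_not.2 h.2)]
    · exact h
  have hτ1 : ∀ i, τ i ≠ 1 → Ld (fun b : Fin (n + 1) => b.val) V i.succ := by
    intro i hi
    by_contra hcon
    apply hi
    simp only [τ]
    rw [if_pos hcon]
  have hτ1' : ∀ i, τ i = 1 → ¬ Ld (fun b : Fin (n + 1) => b.val) V i.succ := by
    intro i hi hcon
    simp only [τ] at hi
    rw [if_neg (not_not.2 hcon)] at hi
    split_ifs at hi <;> exact absurd hi (by decide)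
  have hτ2 : ∀ i, τ i ≠ 2 → Ld dscρ W i.succ := by
    intro i hi
    by_contra hcon
    have h2 : Ld (fun b : Fin (n + 1) => b.val) V i.succ := (hVW i).resolve_right hcon
    apply hi
    simp only [τ]
    rw [if_neg (not_not.2 h2), if_pos hcon]
  have hτ2' : ∀ i, τ i = 2 → ¬ Ld dscρ W i.succ := by
    intro i hi hcon
    simp only [τ] at hi
    split_ifs at hi <;> first | exact absurd hi (by decide) | exact absurd hcon (by assumption)
  refine ⟨τ, V, W, fun v hv w hw => single_form 0 v w (hform _ he0 v hv w hw),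
    fun i hi v hv w hw => single_form i.succ v w (hform _ (hτ0 i hi) v hv w hw), ?_, ?_, ?_, ?_,
    ?_, ?_⟩
  · obtain ⟨v, hv, hv0, -⟩ := hV0
    exact ⟨v, hv, hv0⟩
  · obtain ⟨w, hw, hw0, -⟩ := hW0
    exact ⟨w, hw, hw0⟩
  · intro j hj
    obtain ⟨v, hv, hv0, hv1⟩ := hτ1 j hj
    refine ⟨(v j.succ)⁻¹ • v, V.smul_mem _ hv, ?_, ?_, fun j' hj' => ?_⟩
    · rw [Pi.smul_apply, hv1 0 (by simp), smul_zero]
    · rw [Pi.smul_apply, smul_eq_mul, inv_mul_cancel₀ hv0]
    · rw [Pi.smul_apply, hv1 j'.succ (by simpa using hj'), smul_zero]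
  · intro j hj v hv hv0 hv1
    by_contra hne
    refine hτ1' j hj ⟨v, hv, hne, fun b hb => ?_⟩
    rcases Fin.eq_zero_or_eq_succ b with rfl | ⟨j', rfl⟩
    · exact hv0
    · exact hv1 j' (by simpa using hb)
  · intro k hk
    obtain ⟨w, hw, hw0, hw1⟩ := hτ2 k hk
    refine ⟨(w k.succ)⁻¹ • w, W.smul_mem _ hw, ?_, ?_, fun k' hk' => ?_⟩
    · rw [Pi.smul_apply, hw1 0 (by rw [dscρ_zero, dscρ_succ]; have := k.2; omega), smul_zero]
    · rw [Pi.smul_apply, smul_eq_mul, inv_mul_cancel₀ hw0]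
    · rw [Pi.smul_apply, hw1 k'.succ (by
        rw [dscρ_succ, dscρ_succ]
        have := k'.2
        have : k.val < k'.val := hk'
        omega), smul_zero]
  · intro k hk w hw hw0 hw1
    by_contra hne
    refine hτ2' k hk ⟨w, hw, hne, fun b hb => ?_⟩
    rcases Fin.eq_zero_or_eq_succ b with rfl | ⟨k', rfl⟩
    · exact hw0
    · refine hw1 k' ?_
      rw [dscρ_succ, dscρ_succ] at hb
      have h3 := k'.2
      have h4 := k.2
      show k.val < k'.val
      omega

end Pool.Agent.H628.FF_TR
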