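import Mathlib

set_option autoImplicit false

/-! A hierarchy of coloured affine planes whose colours name the partitions of the whole. -/

namespace Pool.Agent.H628.Sq

open Set

/-- names over `Y`: relations on `Y` together with countably many tokens -/
abbrev Cd (Y : Type) : Type := Set ((Y ⊕ ℕ) × (Y ⊕ ℕ))

/-- the field of rational functions with variables the names over `Y` -/
abbrev Fl (Y : Type) : Type := FractionRing (MvPolynomial (Cd Y) ℚ)

/-- the plane over the field -/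
abbrev Pl (Y : Type) : Type := Fl Y × Fl Y

noncomputable def vr {Y : Type} (κ : Cd Y) : Fl Y :=
  algebraMap (MvPolynomial (Cd Y) ℚ) (Fl Y) (MvPolynomial.X κ)

theorem vr_inj {Y : Type} : Function.Injective (vr (Y := Y)) := fun _ _ e =>
  MvPolynomial.X_injective (IsFractionRing.injective (MvPolynomial (Cd Y) ℚ) (Fl Y) e)

/-- the colour of a pair of points -/
noncomputable def col {Y : Type} (a b : Pl Y) : Fl Y := (a.1 - b.1) * (a.2 - b.2)

/-- the map of names induced by a permutation -/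
def mv {Y : Type} (σ : Equiv.Perm Y) (κ : Cd Y) : Cd Y :=
  {p | (Sum.map (σ⁻¹ : Equiv.Perm Y) id p.1, Sum.map (σ⁻¹ : Equiv.Perm Y) id p.2) ∈ κ}

theorem mv_mul {Y : Type} (σ τ : Equiv.Perm Y) (κ : Cd Y) : mv (σ * τ) κ = mv σ (mv τ κ) := by
  ext ⟨p, q⟩
  rcases p with p | p <;> rcases q with q | q <;> simp [mv]

theorem mv_one {Y : Type} (κ : Cd Y) : mv 1 κ = κ := by
  ext ⟨p, q⟩
  rcases p with p | p <;> rcases q with q | q <;> simp [mv]

def mvE {Y : Type} (σ : Equiv.Perm Y) : Equiv.Perm (Cd Y) where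
  toFun := mv σ
  invFun := mv σ⁻¹
  left_inv κ := by rw [← mv_mul, inv_mul_cancel, mv_one]
  right_inv κ := by rw [← mv_mul, mul_inv_cancel, mv_one]

noncomputable def fl {Y : Type} (σ : Equiv.Perm Y) : Fl Y ≃+* Fl Y :=
  IsFractionRing.ringEquivOfRingEquiv (MvPolynomial.renameEquiv ℚ (mvE σ)).toRingEquiv

theorem fl_vr {Y : Type} (σ : Equiv.Perm Y) (κ : Cd Y) : fl σ (vr κ) = vr (mv σ κ) := by
  simp [fl, vr, mvE]

/-- `τ` is compatible with `σ` -/
def Com {Y : Type} (σ : Equiv.Perm Y) (τ : Equiv.Perm (Pl Y)) : Prop :=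
  ∀ a b κ, col a b = vr κ ↔ col (τ a) (τ b) = vr (mv σ κ)

theorem Com.mul {Y : Type} {σ σ' : Equiv.Perm Y} {τ τ' : Equiv.Perm (Pl Y)} (h : Com σ τ)
    (h' : Com σ' τ') : Com (σ * σ') (τ * τ') := fun a b κ => by
  rw [h' a b κ, h, mv_mul]
  rfl

theorem Com.inv {Y : Type} {σ : Equiv.Perm Y} {τ : Equiv.Perm (Pl Y)} (h : Com σ τ) :
    Com σ⁻¹ τ⁻¹ := fun a b κ => by
  rw [h (τ⁻¹ a), ← mv_mul, mul_inv_cancel, mv_one]
  simp

theorem Com.one {Y : Type} : Com (1 : Equiv.Perm Y) 1 := fun a b κ => by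
  rw [mv_one]; rfl

theorem ex_com {Y : Type} (σ : Equiv.Perm Y) : ∃ τ, Com σ τ ∧ (σ = 1 → τ = 1) := by
  by_cases h : σ = 1
  · exact ⟨1, h ▸ Com.one, fun _ => rfl⟩
  · refine ⟨((fl σ).toEquiv.prodCongr (fl σ).toEquiv), fun a b κ => ?_, fun e => absurd e h⟩
    rw [← fl_vr, ← (fl σ).injective.eq_iff]
    simp [col]

/-- the canonical lift of a permutation -/
noncomputable def can {Y : Type} (σ : Equiv.Perm Y) : Equiv.Perm (Pl Y) := (ex_com σ).choose

theorem can_com {Y : Type} (σ : Equiv.Perm Y) : Com σ (can σ) := (ex_com σ).choose_spec.1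

theorem can_one {Y : Type} : can (1 : Equiv.Perm Y) = 1 := (ex_com 1).choose_spec.2 rfl

/-- the union of the first `n` levels -/
def U : ℕ → Type
  | 0 => Empty
  | n + 1 => U n ⊕ Pl (U n)

/-- the union of all levels -/
def A : Type := Σ n, Pl (U n)

/-- the action on the first levels -/
def hat (g : ∀ n, Equiv.Perm (Pl (U n))) : ∀ n, Equiv.Perm (U n)
  | 0 => 1
  | n + 1 => Equiv.sumCongr (hat g n) (g n)

theorem hat_mul (g h : ∀ n, Equiv.Perm (Pl (U n))) (n : ℕ) : hat (g * h) n = hat g n * hat h n := by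
  induction n with
  | zero => rfl
  | succ n ih =>
    show Equiv.sumCongr (hat (g * h) n) _ = _
    rw [ih]
    exact (Equiv.Perm.sumCongr_mul _ _ _ _).symm

theorem hat_one (n : ℕ) : hat 1 n = 1 := by
  induction n with
  | zero => rfl
  | succ n ih =>
    show Equiv.sumCongr (hat 1 n) _ = _
    rw [ih]
    exact Equiv.Perm.sumCongr_one

theorem hat_inv (g : ∀ n, Equiv.Perm (Pl (U n))) (n : ℕ) : hat g⁻¹ n = (hat g n)⁻¹ :=
  eq_inv_of_mul_eq_one_left (by rw [← hat_mul, inv_mul_cancel, hat_one])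

/-- the group of all level preserving permutations respecting the colours -/
def G : Subgroup (∀ n, Equiv.Perm (Pl (U n))) where
  carrier := {g | ∀ n, Com (hat g n) (g n)}
  mul_mem' {a b} ha hb n := by
    rw [hat_mul]
    exact (ha n).mul (hb n)
  one_mem' n := by
    rw [hat_one]
    exact Com.one
  inv_mem' {a} ha n := by
    rw [hat_inv]
    exact (ha n).inv

instance : MulAction G A where
  smul g a := ⟨a.1, g.1 a.1 a.2⟩
  one_smul _ := rfl
  mul_smul _ _ _ := rfl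

/-- the point `x` of level `n` -/
def pt (n : ℕ) (x : Pl (U n)) : A := ⟨n, x⟩

theorem sm_pt (g : G) (n : ℕ) (x : Pl (U n)) : g • pt n x = pt n (g.1 n x) := rfl

theorem sm_fst (g : G) (a : A) : (g • a).1 = a.1 := rfl

/-- extension of a choice of lifts to a permutation of everything -/
noncomputable def up (e : ∀ n, Equiv.Perm (U n) → Equiv.Perm (Pl (U n))) : ∀ n, Equiv.Perm (U n)
  | 0 => 1
  | n + 1 => Equiv.sumCongr (up e n) (e n (up e n))

theorem hat_up (e : ∀ n, Equiv.Perm (U n) → Equiv.Perm (Pl (U n))) (n : ℕ) :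
    hat (fun n => e n (up e n)) n = up e n := by
  induction n with
  | zero => rfl
  | succ n ih => exact congrArg (fun σ => Equiv.sumCongr σ _) ih

theorem ex_lift (k : ℕ) (h : Equiv.Perm (Pl (U k))) (hh : ∀ a b, col (h a) (h b) = col a b) :
    ∃ g : G, (∀ j < k, g.1 j = 1) ∧ g.1 k = h := by
  have hc : Com 1 h := fun a b κ => by rw [hh, mv_one]
  let e : ∀ n, Equiv.Perm (U n) → Equiv.Perm (Pl (U n)) :=
    Function.update (fun _ => can) k fun σ => h * can σ
  have e1 : ∀ n σ, Com σ (e n σ) := by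
    intro n σ
    by_cases hn : n = k
    · subst hn
      simp only [e, Function.update_self]
      simpa using hc.mul (can_com σ)
    · simp only [e, Function.update_of_ne hn]
      exact can_com σ
  have e2 : ∀ n ≤ k, up e n = 1 := by
    intro n
    induction n with
    | zero => exact fun _ => rfl
    | succ n ih =>
      intro hn
      show Equiv.sumCongr (up e n) (e n (up e n)) = 1
      rw [ih (by omega)]
      have : e n 1 = 1 := by
        simp only [e, Function.update_of_ne (show n ≠ k by omega)]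
        exact can_one
      rw [this]
      exact Equiv.Perm.sumCongr_one
  refine ⟨⟨fun n => e n (up e n), fun n => ?_⟩, fun j hj => ?_, ?_⟩
  · rw [hat_up]
    exact e1 n _
  · show e j (up e j) = 1
    rw [e2 j hj.le]
    simp only [e, Function.update_of_ne (show j ≠ k by omega)]
    exact can_one
  · show e k (up e k) = h
    rw [e2 k le_rfl]
    simp only [e, Function.update_self]
    rw [can_one, mul_one]

/-- the inclusion of the first levels -/
def inc : ∀ n, U n → A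
  | 0 => Empty.elim
  | n + 1 => Sum.elim (inc n) (pt n)

theorem inc_lt : ∀ n (x : U n), (inc n x).1 < n
  | 0, x => x.elim
  | n + 1, .inl x => (inc_lt n x).trans (Nat.lt_succ_self n)
  | n + 1, .inr _ => Nat.lt_succ_self n

theorem inc_inj : ∀ n, Function.Injective (inc n)
  | 0 => fun x => x.elim
  | n + 1 => (inc_inj n).sumElim (fun x y e => by
      have : (⟨n, x⟩ : Σ n, Pl (U n)) = ⟨n, y⟩ := e
      simpa using this) fun x y e => (inc_lt n x).ne (congrArg Sigma.fst e)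

theorem inc_surj : ∀ n (a : A), a.1 < n → ∃ x, inc n x = a
  | 0, a, h => absurd h (Nat.not_lt_zero _)
  | n + 1, ⟨k, a⟩, h => by
      rcases Nat.lt_succ_iff_lt_or_eq.1 h with h | h
      · obtain ⟨x, hx⟩ := inc_surj n ⟨k, a⟩ h
        exact ⟨.inl x, hx⟩
      · obtain rfl : k = n := h
        exact ⟨.inr a, rfl⟩

theorem sm_inc (g : G) : ∀ n (x : U n), g • inc n x = inc n (hat g.1 n x)
  | 0, x => x.elim
  | n + 1, .inl x => sm_inc g n x
  | _ + 1, .inr _ => rfl

/-- the set of points given by an element of `U n` or a token -/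
def jn (n : ℕ) : U n ⊕ ℕ → Set A
  | .inl x => {inc n x}
  | .inr k => {a | a.1 = n + k}

/-- the relation given by a name -/
def dec (n : ℕ) (κ : Cd (U n)) (a b : A) : Prop :=
  a = b ∨ ∃ p ∈ κ, a ∈ jn n p.1 ∧ b ∈ jn n p.2

theorem jn_sm (g : G) (n : ℕ) (a : A) (p : U n ⊕ ℕ) (h : a ∈ jn n p) :
    g • a ∈ jn n (Sum.map (hat g.1 n) id p) := by
  rcases p with x | k
  · obtain rfl : a = inc n x := h
    exact sm_inc g n x
  · exact h

theorem dec_sm (g : G) (n : ℕ) (κ : Cd (U n)) (a b : A) (h : dec n κ a b) :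
    dec n (mv (hat g.1 n) κ) (g • a) (g • b) := by
  rcases h with rfl | ⟨⟨p, q⟩, hp, ha, hb⟩
  · exact Or.inl rfl
  · refine Or.inr ⟨(Sum.map (hat g.1 n) id p, Sum.map (hat g.1 n) id q), ?_, jn_sm g n a p ha,
      jn_sm g n b q hb⟩
    rcases p with p | p <;> rcases q with q | q <;> simpa [mv] using hp

theorem dec_sm' (g : G) (n : ℕ) (κ : Cd (U n)) (a b : A) :
    dec n (mv (hat g.1 n) κ) (g • a) (g • b) ↔ dec n κ a b := by
  refine ⟨fun h => ?_, dec_sm g n κ a b⟩
  have := dec_sm g⁻¹ n _ _ _ h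
  rwa [inv_smul_smul, inv_smul_smul, ← mv_mul, show (g⁻¹).1 = g.1⁻¹ from rfl, hat_inv,
    inv_mul_cancel, mv_one] at this

theorem jn_ex (n : ℕ) (a : A) : ∃ p, a ∈ jn n p := by
  by_cases h : a.1 < n
  · obtain ⟨x, hx⟩ := inc_surj n a h
    exact ⟨.inl x, hx.symm⟩
  · exact ⟨.inr (a.1 - n), show a.1 = n + (a.1 - n) by omega⟩

/-- an equivalence relation preserved by all elements of the group fixing the first levels -/
structure Inv (n : ℕ) (R : A → A → Prop) : Prop where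
  eqv : Equivalence R
  inv : ∀ g : G, (∀ a : A, a.1 < n → g • a = a) → ∀ a b, R a b → R (g • a) (g • b)

variable {n : ℕ} {R : A → A → Prop}

theorem Inv.mv (hR : Inv n R) {k : ℕ} (hk : n ≤ k) (h : Equiv.Perm (Pl (U k)))
    (hh : ∀ a b, col (h a) (h b) = col a b) : ∃ g : G, (∀ a b, R a b → R (g • a) (g • b)) ∧
      (∀ a : A, a.1 < k → g • a = a) ∧ ∀ x, g • pt k x = pt k (h x) := by
  obtain ⟨g, h1, h2⟩ := ex_lift k h hh
  have h3 : ∀ a : A, a.1 < k → g • a = a := fun a ha => by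
    show (⟨a.1, g.1 a.1 a.2⟩ : A) = a
    rw [h1 _ ha]
    rfl
  exact ⟨g, hR.inv g fun a ha => h3 a (ha.trans_le hk), h3, fun x => by rw [sm_pt, h2]⟩

theorem Inv.trn (hR : Inv n R) {k : ℕ} (hk : n ≤ k) (v : Pl (U k)) :
    ∃ g : G, (∀ a b, R a b → R (g • a) (g • b)) ∧
      (∀ a : A, a.1 < k → g • a = a) ∧ ∀ x, g • pt k x = pt k (x + v) :=
  hR.mv hk (Equiv.addRight v) fun a b => by simp [col]

theorem Inv.torus (hR : Inv n R) {k : ℕ} (hk : n ≤ k) {t : Fl (U k)} (ht : t ≠ 0)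
    {u v : Fl (U k)} (h : R (pt k 0) (pt k (u, v))) : R (pt k 0) (pt k (t * u, t⁻¹ * v)) := by
  obtain ⟨g, h1, -, h2⟩ := hR.mv hk ((Equiv.mulLeft₀ t ht).prodCongr
    (Equiv.mulLeft₀ t⁻¹ (inv_ne_zero ht))) fun a b => by
      show (t * a.1 - t * b.1) * (t⁻¹ * a.2 - t⁻¹ * b.2) = (a.1 - b.1) * (a.2 - b.2)
      field_simp
  have := h1 _ _ h
  rw [h2, h2] at this
  have e : (((Equiv.mulLeft₀ t ht).prodCongr (Equiv.mulLeft₀ t⁻¹ (inv_ne_zero ht))) 0 : Pl (U k)) =
      0 := Prod.ext (mul_zero t) (mul_zero t⁻¹)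
  rw [e] at this
  exact this

theorem Inv.swap (hR : Inv n R) {k : ℕ} (hk : n ≤ k)
    {u v : Fl (U k)} (h : R (pt k 0) (pt k (u, v))) : R (pt k 0) (pt k (v, u)) := by
  obtain ⟨g, h1, -, h2⟩ := hR.mv hk (Equiv.prodComm _ _) fun a b => by
    simp only [col, Equiv.prodComm_apply, Prod.fst_swap, Prod.snd_swap]
    ring
  have := h1 _ _ h
  rw [h2, h2] at this
  exact this

theorem Inv.shift (hR : Inv n R) {k : ℕ} (hk : n ≤ k) {x y : Pl (U k)} (v : Pl (U k))
    (h : R (pt k x) (pt k y)) : R (pt k (x + v)) (pt k (y + v)) := by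
  obtain ⟨g, h1, -, h2⟩ := hR.trn hk v
  have := h1 _ _ h
  rwa [h2, h2] at this

theorem Inv.add (hR : Inv n R) {k : ℕ} (hk : n ≤ k) {x y : Pl (U k)}
    (h : R (pt k 0) (pt k x)) (h' : R (pt k 0) (pt k y)) : R (pt k 0) (pt k (x + y)) := by
  have := hR.shift hk y h
  rw [zero_add] at this
  exact hR.eqv.trans h' this

theorem Inv.sub (hR : Inv n R) {k : ℕ} (hk : n ≤ k) {x y : Pl (U k)}
    (h : R (pt k 0) (pt k x)) (h' : R (pt k 0) (pt k y)) : R (pt k 0) (pt k (x - y)) := by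
  have := hR.shift hk (-y) (hR.eqv.trans (hR.eqv.symm h') h)
  rwa [add_neg_cancel, ← sub_eq_add_neg] at this

theorem Inv.prim (hR : Inv n R) {k : ℕ} (hk : n ≤ k) {x y : Pl (U k)} (hxy : x ≠ y)
    (h : R (pt k x) (pt k y)) (z w : Pl (U k)) : R (pt k z) (pt k w) := by
  have key : ∀ {u v : Fl (U k)}, v ≠ 0 → R (pt k 0) (pt k (u, v)) → ∀ w : Fl (U k),
      R (pt k 0) (pt k (0, w)) := by
    intro u v hv h w
    have h1 := hR.sub hk (hR.add hk h h) (hR.torus hk two_ne_zero h)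
    have h2 : ((u, v) + (u, v) - (2 * u, 2⁻¹ * v) : Pl (U k)) = (0, 3 / 2 * v) :=
      Prod.ext (by simp; ring) (by simp; ring)
    rw [h2] at h1
    by_cases hw : w = 0
    · rw [hw]
      exact hR.eqv.refl _
    · have h3 : (3 / 2 * v) / w ≠ 0 := div_ne_zero (mul_ne_zero (by norm_num) hv) hw
      have := hR.torus hk h3 h1
      rwa [mul_zero, inv_div, div_mul_cancel₀ _ (mul_ne_zero (by norm_num) hv)] at this
  have h0 := hR.shift hk (-x) h
  rw [add_neg_cancel, ← sub_eq_add_neg] at h0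
  have h1 : ∃ u v, v ≠ 0 ∧ R (pt k 0) (pt k (u, v)) := by
    by_cases e : (y - x).2 = 0
    · refine ⟨(y - x).2, (y - x).1, fun e' => hxy ?_, hR.swap hk h0⟩
      exact (sub_eq_zero.1 (Prod.ext e' e)).symm
    · exact ⟨_, _, e, h0⟩
  obtain ⟨u, v, hv, h1⟩ := h1
  have h2 : ∀ w : Pl (U k), R (pt k 0) (pt k w) := fun w => by
    have := hR.add hk (hR.swap hk (key hv h1 w.1)) (key hv h1 w.2)
    simpa using this
  exact hR.eqv.trans (hR.eqv.symm (h2 z)) (h2 w)

theorem pt_fst_snd (a : A) : pt a.1 a.2 = a := rfl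

/-- a point of a late level related to some other point is related to its whole level -/
theorem Inv.whole (hR : Inv n R) {a b c : A} (ha : n ≤ a.1) (hc : c.1 = a.1) (hab : a ≠ b)
    (h : R a b) : R a c := by
  obtain ⟨k, x⟩ := a
  obtain ⟨j, y⟩ := b
  obtain ⟨k', x'⟩ := c
  obtain rfl : k' = k := hc
  change n ≤ k' at ha
  have low : ∀ {k : ℕ} (_ : n ≤ k) (x z : Pl (U k)) (b : A), b.1 < k → R (pt k x) b →
      R (pt k z) b := by
    intro k hk x z b hb h
    obtain ⟨g, h1, h2, h3⟩ := hR.trn hk (z - x)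
    have := h1 _ _ h
    rw [h3, h2 _ hb] at this
    simpa using this
  rcases lt_trichotomy j k' with hj | rfl | hj
  · exact hR.eqv.trans h (hR.eqv.symm (low ha x x' _ hj h))
  · exact hR.prim ha (fun e => hab (by rw [e])) h x x'
  · have h1 : ∀ z : Pl (U j), R (pt k' x) (pt j z) := fun z =>
      hR.eqv.symm (low (ha.trans hj.le) y z _ hj (hR.eqv.symm h))
    obtain ⟨g, h2, -, h3⟩ := hR.trn ha (x' - x)
    have h4 := h2 _ _ h
    rw [show (⟨k', x⟩ : Σ n, Pl (U n)) = pt k' x from rfl,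
      show (⟨j, y⟩ : Σ n, Pl (U n)) = pt j y from rfl] at h4
    rw [h3, sm_pt, add_sub_cancel] at h4
    exact hR.eqv.trans (h1 _) (hR.eqv.symm h4)

/-- every such relation has a name -/
theorem Inv.name (hR : Inv n R) : ∃ κ : Cd (U n), ∀ a b, dec n κ a b ↔ R a b := by
  have key : ∀ p (a b c : A), a ∈ jn n p → c ∈ jn n p → a ≠ b → R a b → R a c := by
    rintro (x | k) a b c ha hc hab h
    · obtain rfl : a = inc n x := ha
      obtain rfl : c = inc n x := hc
      exact hR.eqv.refl _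
    · have ha' : a.1 = n + k := ha
      have hc' : c.1 = n + k := hc
      exact hR.whole (ha' ▸ Nat.le_add_right n k) (hc'.trans ha'.symm) hab h
  refine ⟨{p | ∃ a b, a ∈ jn n p.1 ∧ b ∈ jn n p.2 ∧ a ≠ b ∧ R a b}, fun a b => ⟨?_, fun h => ?_⟩⟩
  · rintro (rfl | ⟨⟨p, q⟩, ⟨a', b', h1, h2, h3, h4⟩, ha, hb⟩)
    · exact hR.eqv.refl _
    · exact hR.eqv.trans (hR.eqv.symm (key p a' b' a h1 ha h3 h4))
        (hR.eqv.trans h4 (key q b' a' b h2 hb h3.symm (hR.eqv.symm h4)))
  · by_cases e : a = b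
    · exact Or.inl e
    · obtain ⟨p, hp⟩ := jn_ex n a
      obtain ⟨q, hq⟩ := jn_ex n b
      exact Or.inr ⟨(p, q), ⟨a, b, hp, hq, e, h⟩, hp, hq⟩

/-- the relation attached to a pair of points -/
def rel (a b : A) : A → A → Prop := fun x y => x = y ∨
  ∃ (n : ℕ) (u v : Pl (U n)) (κ : Cd (U n)), a = pt n u ∧ b = pt n v ∧ col u v = vr κ ∧ dec n κ x y

theorem rel_sm (g : G) {a b x y : A} (h : rel a b x y) : rel (g • a) (g • b) (g • x) (g • y) := by
  rcases h with rfl | ⟨n, u, v, κ, rfl, rfl, h1, h2⟩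
  · exact Or.inl rfl
  · exact Or.inr ⟨n, g.1 n u, g.1 n v, _, rfl, rfl, (g.2 n u v κ).1 h1, (dec_sm g n κ x y h2)⟩

theorem rel_ex (hR : Inv n R) : ∃ a b, rel a b = R := by
  obtain ⟨κ, hκ⟩ := hR.name
  refine ⟨pt n (vr κ, 1), pt n 0, funext fun x => funext fun y => propext ⟨?_, fun h => ?_⟩⟩
  · rintro (rfl | ⟨m, u, v, κ', h1, h2, h3, h4⟩)
    · exact hR.eqv.refl _
    · obtain rfl : n = m := congrArg Sigma.fst h1
      obtain rfl : (vr κ, 1) = u := eq_of_heq (Sigma.mk.inj h1).2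
      obtain rfl : 0 = v := eq_of_heq (Sigma.mk.inj h2).2
      have : κ = κ' := vr_inj (by simpa [col] using h3)
      exact (hκ x y).1 (this ▸ h4)
  · exact Or.inr ⟨n, _, _, κ, rfl, rfl, by simp [col], (hκ x y).2 h⟩

end Pool.Agent.H628.Sq
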